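import Pool.Agent.MP_57c94c_al.Mg.Rep
import Pool.Agent.MP_57c94c_al.SL25

/-!
# `(k^G)_par` is not semisimple for `G = SL(2,5)/{±1}` in characteristic two
-/

namespace Pool.Agent.MP_57c94c_al

universe u

open SL25

instance : (Subgroup.zpowers z).Normal := by
  refine ⟨fun n hn g => ?_⟩
  obtain ⟨m, rfl⟩ := hn
  have : Commute g (z ^ m) := (show Commute g z from z_comm g).zpow_right m
  change g * z ^ m * g⁻¹ ∈ _
  rw [this.eq, mul_inv_cancel_right]
  exact ⟨m, rfl⟩

/-- the group `PSL(2,5)` -/
abbrev PG : Type := SL25 ⧸ Subgroup.zpowers z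

noncomputable instance : Fintype PG := Fintype.ofFinite _
noncomputable instance : DecidableEq PG := Classical.decEq _

def ph : SL25 →* PG := QuotientGroup.mk' _

theorem mem_zpowers_z {x : SL25} : x ∈ Subgroup.zpowers z ↔ x = 1 ∨ x = z := by
  constructor
  · rintro ⟨m, rfl⟩
    have h2 : z ^ (2 : ℤ) = 1 := by rw [zpow_two, z_mul_z]
    change z ^ m = 1 ∨ z ^ m = z
    rcases Int.even_or_odd' m with ⟨j, rfl | rfl⟩
    · left; rw [zpow_mul, h2, one_zpow]
    · right; rw [zpow_add, zpow_mul, h2, one_zpow, one_mul, zpow_one]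
  · rintro (rfl | rfl)
    · exact Subgroup.one_mem _
    · exact Subgroup.mem_zpowers _

theorem ph_eq {x y : SL25} : ph x = ph y ↔ x = y ∨ x = y * z := by
  change (QuotientGroup.mk x : PG) = QuotientGroup.mk y ↔ _
  rw [eq_comm, QuotientGroup.eq, mem_zpowers_z, inv_mul_eq_one, inv_mul_eq_iff_eq_mul, eq_comm]

theorem ph_z : ph z = 1 := by
  rw [← map_one ph, ph_eq]; right; simp

variable (k : Type u) [Field k]

/-- left translation -/
def Lt : SL25 →* Module.End k (SL25 → k) where
  toFun g :=
    { toFun := fun f x => f (g⁻¹ * x)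
      map_add' := fun _ _ => rfl
      map_smul' := fun _ _ => rfl }
  map_one' := by ext f x; simp
  map_mul' g h := by ext f x; simp [mul_assoc]

theorem Lt_apply (g : SL25) (f : SL25 → k) (x : SL25) : Lt k g f x = f (g⁻¹ * x) := rfl

/-- projection onto a homogeneous component -/
noncomputable def pr (y : PG) : Module.End k (SL25 → k) where
  toFun f x := if ph x = y then f x else 0
  map_add' f f' := by funext x; by_cases h : ph x = y <;> simp [h]
  map_smul' c f := by funext x; by_cases h : ph x = y <;> simp [h]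

theorem pr_apply (y : PG) (f : SL25 → k) (x : SL25) :
    pr k y f x = if ph x = y then f x else 0 := rfl

theorem pr_mul (a b : PG) : pr k a * pr k b = if a = b then pr k a else 0 := by
  refine LinearMap.ext fun f => funext fun x => ?_
  by_cases hab : a = b
  · subst hab
    by_cases h : ph x = a <;> simp [pr_apply, h]
  · by_cases h : ph x = a
    · subst h
      simp [pr_apply, hab]
    · simp [pr_apply, hab, h]

theorem pr_sum : ∑ a, pr k a = 1 := by
  refine LinearMap.ext fun f => funext fun x => ?_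
  simp [LinearMap.sum_apply, Finset.sum_apply, pr_apply]

theorem pr_mul_Lt (a : PG) (x : SL25) : pr k a * Lt k x = Lt k x * pr k ((ph x)⁻¹ * a) := by
  refine LinearMap.ext fun f => funext fun w => ?_
  simp [pr_apply, Lt_apply]

/-- the idempotent -/
noncomputable def TT : Module.End k (SL25 → k) :=
  ∑ x ∈ Finset.univ.filter IsOdd, Lt k x

theorem TT_comm (y : SL25) : TT k * Lt k y = Lt k y * TT k := by
  have : Lt k y * TT k * Lt k y⁻¹ = TT k := by
    unfold TT
    rw [Finset.mul_sum, Finset.sum_mul]
    simp only [← map_mul]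
    refine Finset.sum_bij (fun x _ => y * x * y⁻¹) (fun x hx => ?_) (fun x _ x' _ h => ?_)
      (fun x hx => ?_) (fun _ _ => rfl)
    · simpa [odd_conj] using hx
    · simpa using h
    · refine ⟨y⁻¹ * x * y, ?_, by group⟩
      have := odd_conj x y⁻¹
      rw [inv_inv] at this
      simpa [this] using hx
  calc TT k * Lt k y = Lt k y * TT k * Lt k y⁻¹ * Lt k y := by rw [this]
    _ = _ := by rw [mul_assoc, ← map_mul]; simp

theorem Tg_eq (g : PG) : Tg (pr k) (TT k) g =
    ∑ x ∈ Finset.univ.filter (fun x => IsOdd x ∧ ph x = g), Lt k x := by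
  unfold Tg TT
  simp only [Finset.mul_sum, Finset.sum_mul, pr_mul_Lt, mul_assoc, pr_mul]
  rw [Finset.sum_comm, ← Finset.filter_filter, Finset.sum_filter (p := fun x => ph x = g)]
  refine Finset.sum_congr rfl fun x _ => ?_
  rw [← Finset.mul_sum]
  by_cases h : ph x = g
  · subst h
    simp only [if_true]
    have := Equiv.sum_comp (Equiv.mulLeft (ph x)⁻¹) (fun a => pr k a)
    simp only [Equiv.coe_mulLeft] at this
    rw [this, pr_sum, mul_one]
  · simp [h]

theorem TT_comm_Tg (g : PG) : TT k * Tg (pr k) (TT k) g = Tg (pr k) (TT k) g * TT k := by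
  rw [Tg_eq, Finset.mul_sum, Finset.sum_mul]
  exact Finset.sum_congr rfl fun x _ => TT_comm k x

theorem Tg_single (x : SL25) (h1 : IsOdd x) (h2 : ¬ IsOdd (x * z)) :
    Tg (pr k) (TT k) (ph x) = Lt k x := by
  rw [Tg_eq, Finset.sum_eq_single x]
  · intro b hb hne
    simp only [Finset.mem_filter, Finset.mem_univ, true_and, ph_eq] at hb
    rcases hb.2 with rfl | rfl
    · exact absurd rfl hne
    · exact absurd hb.1 h2
  · intro h
    simp [h1] at h

variable [CharP k 2]

theorem TT_idem : TT k * TT k = TT k := by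
  unfold TT
  rw [Finset.sum_mul_sum]
  have h1 : ∀ x : SL25, (∑ y ∈ Finset.univ.filter IsOdd, Lt k x * Lt k y) =
      ∑ g : SL25, if IsOdd (x⁻¹ * g) then Lt k g else 0 := by
    intro x
    rw [Finset.sum_filter, ← Equiv.sum_comp (Equiv.mulLeft x⁻¹)]
    refine Finset.sum_congr rfl fun g _ => ?_
    simp [← map_mul]
  simp only [h1]
  rw [Finset.sum_comm, Finset.sum_filter]
  refine Finset.sum_congr rfl fun g _ => ?_
  rw [← Finset.sum_filter, Finset.filter_filter, Finset.sum_const, ← Nat.cast_smul_eq_nsmul k,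
    CharP.cast_eq_mod k 2, count_odd g]
  split_ifs <;> simp

theorem not_semisimple : ¬ IsSemisimpleRing (HPar k (DualAlg k PG)) := by
  obtain ⟨Φ, hmem, hle⟩ := exists_hom (k := k) (xg (pr k) (TT k))
    (xg_sum _ _ (pr_sum k) (TT_idem k))
    (xg_left _ _ (pr_mul k) (TT_idem k) (TT_comm_Tg k))
    (xg_right _ _ (pr_mul k) (TT_idem k) (TT_comm_Tg k))
  have hT := TT_idem k
  have hE : ∀ g, Eg (xg (pr k) (TT k)) g ∈ Φ.range := fun g =>
    Subalgebra.sum_mem _ fun a _ => Subalgebra.mul_mem _ (hmem _) (hmem _)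
  have hL : ∀ x : SL25, IsOdd x → ¬ IsOdd (x * z) → (x ≠ 1 ∧ x ≠ z) →
      TT k * Lt k x ∈ Φ.range := by
    intro x h1 h2 h3
    have := hE (ph x)
    have hne : ph x ≠ 1 := by
      rw [← map_one ph, Ne, ph_eq, one_mul]
      tauto
    rwa [Eg_xg _ _ hT, if_neg hne, add_zero, Tg_single k x h1 h2, mul_assoc, ← TT_comm,
      ← mul_assoc, hT] at this
  have hmul : ∀ x y : SL25, TT k * Lt k x * (TT k * Lt k y) = TT k * Lt k (x * y) := by
    intro x y
    calc TT k * Lt k x * (TT k * Lt k y) = TT k * (Lt k x * TT k) * Lt k y := by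
          simp only [mul_assoc]
      _ = (TT k * TT k) * (Lt k x * Lt k y) := by rw [← TT_comm]; simp only [mul_assoc]
      _ = _ := by rw [hT, map_mul]
  have hu := hL u odd_u not_odd_uz u_ne
  have hv := hL v odd_v not_odd_vz v_ne
  have h1 : TT k * Lt k 1 ∈ Φ.range := by
    have := Subalgebra.mul_mem _ (Subalgebra.mul_mem _ hu hu) hu
    rwa [hmul, hmul, u_cube] at this
  have hz : TT k * Lt k z ∈ Φ.range := by
    have := Subalgebra.mul_mem _ (Subalgebra.mul_mem _ (Subalgebra.mul_mem _ hu hv) hu) hv
    rwa [hmul, hmul, hmul, uvuv] at this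
  refine not_semisimple_of_central_nilpotent Φ (TT k * Lt k z + TT k * Lt k 1)
    (Subalgebra.add_mem _ hz h1) (fun a => ?_) ?_ ?_
  · have hcen : Φ.range ≤ Subalgebra.centralizer k {TT k * Lt k z + TT k * Lt k 1} := by
      refine hle _ fun g => ?_
      rw [Subalgebra.mem_centralizer_iff]
      intro n hn
      rw [Set.mem_singleton_iff] at hn
      subst hn
      have c1 : Commute (Lt k z) (TT k) := (TT_comm k z).symm
      have c2 : Commute (Lt k z) (pr k g) := by
        have := pr_mul_Lt k g z
        rw [ph_z, inv_one, one_mul] at this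
        exact this.symm
      have c3 : Commute (Lt k z) (xg (pr k) (TT k) g) := commute_xg _ _ _ g c1 c2
      have c4 : Commute (TT k) (xg (pr k) (TT k) g) := commute_xg_self _ _ hT g
      rw [map_one, mul_one]
      exact ((c4.mul_left c3).add_left c4).eq
    have := (Subalgebra.mem_centralizer_iff k).1 (hcen ⟨a, rfl⟩) _ (Set.mem_singleton _)
    exact this.symm
  · rw [add_mul, mul_add, mul_add, hmul, hmul, hmul, hmul, z_mul_z, mul_one, one_mul, mul_one]
    have h2 : ∀ y : Module.End k (SL25 → k), y + y = 0 := fun y => by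
      rw [← two_smul k y, CharTwo.two_eq_zero, zero_smul]
    calc _ = (TT k * Lt k 1 + TT k * Lt k 1) + (TT k * Lt k z + TT k * Lt k z) := by abel
      _ = 0 := by rw [h2, h2, add_zero]
  · intro h0
    have hval : ∀ w x : SL25, (TT k * Lt k w) (Pi.single 1 1) x =
        if IsOdd (x * w⁻¹) then 1 else 0 := by
      intro w x
      unfold TT
      simp only [Module.End.mul_apply, LinearMap.sum_apply, Finset.sum_apply, Lt_apply,
        Pi.single_apply]
      by_cases h : IsOdd (x * w⁻¹)
      · rw [if_pos h, Finset.sum_eq_single (x * w⁻¹)]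
        · simp
        · intro b _ hb
          rw [if_neg]
          intro hh
          apply hb
          rw [inv_mul_eq_one, eq_inv_mul_iff_mul_eq] at hh
          rw [← hh]; simp
        · intro hh
          simp [h] at hh
      · rw [if_neg h]
        refine Finset.sum_eq_zero fun b hb => ?_
        rw [if_neg]
        intro hh
        rw [inv_mul_eq_one, eq_inv_mul_iff_mul_eq] at hh
        apply h
        rw [← hh]
        simpa using hb
    have := congrFun (LinearMap.congr_fun h0 (Pi.single 1 1)) u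
    have hzinv : z⁻¹ = z := inv_eq_of_mul_eq_one_right z_mul_z
    rw [LinearMap.add_apply, Pi.add_apply, hval, hval, hzinv, if_neg not_odd_uz, inv_one, mul_one,
      if_pos odd_u] at this
    simp at this

end Pool.Agent.MP_57c94c_al
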