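import Pool.Agent.MP_57c94c_al.Defs

-- part MP_57c94c_al.Dual
section

/-!
# The dual group algebra `k^G` as a Hopf algebra
-/

namespace Pool.Agent.MP_57c94c_al

open TensorProduct

universe u

/-- functions on `G` -/
def DualAlg (k : Type u) (G : Type) : Type u := G → k

variable (k : Type u) [Field k] (G : Type) [Group G] [Fintype G] [DecidableEq G]

instance : CommRing (DualAlg k G) := inferInstanceAs (CommRing (G → k))
instance : Algebra k (DualAlg k G) := inferInstanceAs (Algebra k (G → k))
instance : Module.Finite k (DualAlg k G) := inferInstanceAs (Module.Finite k (G → k))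
instance : IsSemisimpleRing (DualAlg k G) := inferInstanceAs (IsSemisimpleRing (G → k))

variable {k G}

/-- value of a function -/
def DualAlg.ev (f : DualAlg k G) (g : G) : k := f g

/-- delta function -/
def dl (g : G) : DualAlg k G := (Pi.single g 1 : G → k)

omit [Field k] [Group G] [Fintype G] [DecidableEq G] in
theorem DualAlg.ext' {f f' : DualAlg k G} (h : ∀ g, f.ev g = f'.ev g) : f = f' := funext h

omit [Group G] [Fintype G] in
theorem ev_dl (g h : G) : (dl g : DualAlg k G).ev h = if h = g then 1 else 0 := by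
  simp [DualAlg.ev, dl, Pi.single_apply]

omit [Group G] [Fintype G] [DecidableEq G] in
theorem ev_mul (f f' : DualAlg k G) (g : G) : (f * f').ev g = f.ev g * f'.ev g := rfl
omit [Group G] [Fintype G] [DecidableEq G] in
theorem ev_add (f f' : DualAlg k G) (g : G) : (f + f').ev g = f.ev g + f'.ev g := rfl
omit [Group G] [Fintype G] [DecidableEq G] in
theorem ev_smul (c : k) (f : DualAlg k G) (g : G) : (c • f).ev g = c * f.ev g := rfl
omit [Group G] [Fintype G] [DecidableEq G] in
theorem ev_one (g : G) : (1 : DualAlg k G).ev g = 1 := rfl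
omit [Group G] [Fintype G] [DecidableEq G] in
theorem ev_zero (g : G) : (0 : DualAlg k G).ev g = 0 := rfl

/-- evaluation as a linear map -/
def evL (g : G) : DualAlg k G →ₗ[k] k where
  toFun f := f.ev g
  map_add' _ _ := rfl
  map_smul' _ _ := rfl

omit [Group G] [Fintype G] [DecidableEq G] in
theorem ev_sum {ι : Type*} (s : Finset ι) (f : ι → DualAlg k G) (g : G) :
    (∑ i ∈ s, f i).ev g = ∑ i ∈ s, (f i).ev g := map_sum (evL g) f s

omit [Group G] in
theorem eq_sum_dl (f : DualAlg k G) : f = ∑ g, f.ev g • (dl g : DualAlg k G) := by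
  refine DualAlg.ext' fun h => ?_
  simp [ev_sum, ev_smul, ev_dl]

omit [Group G] [Fintype G] in
theorem dl_mul_dl (a b : G) : (dl a : DualAlg k G) * dl b = if a = b then dl a else 0 := by
  refine DualAlg.ext' fun h => ?_
  by_cases hab : a = b
  · subst hab
    by_cases h1 : h = a <;> simp [ev_mul, ev_dl, h1]
  · by_cases h1 : h = a
    · subst h1
      simp [ev_mul, ev_dl, hab, ev_zero]
    · simp [ev_mul, ev_dl, hab, ev_zero, h1]

omit [Group G] [Fintype G] in
theorem mul_dl (f : DualAlg k G) (a : G) : f * dl a = f.ev a • (dl a : DualAlg k G) := by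
  refine DualAlg.ext' fun h => ?_
  by_cases h1 : h = a <;> simp [ev_mul, ev_smul, ev_dl, h1]

omit [Group G] in
theorem sum_dl : ∑ g : G, (dl g : DualAlg k G) = 1 := by
  refine DualAlg.ext' fun h => ?_
  simp [ev_sum, ev_dl, ev_one]

/-- comultiplication -/
def comulL : DualAlg k G →ₗ[k] DualAlg k G ⊗[k] DualAlg k G where
  toFun f := ∑ a : G, ∑ b : G, f.ev (a * b) • ((dl a : DualAlg k G) ⊗ₜ[k] (dl b : DualAlg k G))
  map_add' f f' := by simp [ev_add, add_smul, Finset.sum_add_distrib]
  map_smul' c f := by simp [ev_smul, mul_smul, Finset.smul_sum]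

theorem comulL_apply (f : DualAlg k G) : comulL f =
    ∑ a : G, ∑ b : G, f.ev (a * b) • ((dl a : DualAlg k G) ⊗ₜ[k] (dl b : DualAlg k G)) := rfl

theorem comulL_dl (x : G) : comulL (dl x : DualAlg k G) =
    ∑ a : G, ((dl a : DualAlg k G) ⊗ₜ[k] (dl (a⁻¹ * x) : DualAlg k G)) := by
  rw [comulL_apply]
  refine Finset.sum_congr rfl fun a _ => ?_
  rw [Finset.sum_eq_single (a⁻¹ * x)]
  · simp [ev_dl]
  · intro b _ hb
    rw [ev_dl, if_neg, zero_smul]
    rintro rfl
    simp at hb
  · simp

/-- antipode -/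
def antipodeL : DualAlg k G →ₗ[k] DualAlg k G where
  toFun f := fun g => f.ev g⁻¹
  map_add' _ _ := rfl
  map_smul' _ _ := rfl

omit [Fintype G] in
theorem antipodeL_dl (a : G) : antipodeL (dl a : DualAlg k G) = dl a⁻¹ := by
  refine DualAlg.ext' fun h => ?_
  change (dl a : DualAlg k G).ev h⁻¹ = _
  simp [ev_dl, inv_eq_iff_eq_inv]

omit [Group G] [Fintype G] in
theorem evL_dl (a b : G) : evL a (dl b : DualAlg k G) = if a = b then 1 else 0 := ev_dl b a

noncomputable instance : Coalgebra k (DualAlg k G) where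
  comul := comulL
  counit := evL 1
  coassoc := by
    refine LinearMap.ext fun f => ?_
    have hL : (TensorProduct.assoc k (DualAlg k G) (DualAlg k G) (DualAlg k G))
        (LinearMap.rTensor (DualAlg k G) comulL (comulL f)) =
        ∑ a : G, ∑ b : G, ∑ c : G, f.ev (a * b * c) • ((dl a : DualAlg k G) ⊗ₜ[k]
          ((dl b : DualAlg k G) ⊗ₜ[k] (dl c : DualAlg k G))) := by
      rw [comulL_apply]
      simp only [map_sum, map_smul, LinearMap.rTensor_tmul, comulL_dl]
      simp only [TensorProduct.sum_tmul, map_sum, TensorProduct.assoc_tmul, Finset.smul_sum]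
      have h1 : ∀ x : G, (∑ c : G, ∑ a : G, f.ev (x * c) • ((dl a : DualAlg k G) ⊗ₜ[k]
          ((dl (a⁻¹ * x) : DualAlg k G) ⊗ₜ[k] (dl c : DualAlg k G)))) =
          ∑ a : G, ∑ c : G, f.ev (x * c) • ((dl a : DualAlg k G) ⊗ₜ[k]
          ((dl (a⁻¹ * x) : DualAlg k G) ⊗ₜ[k] (dl c : DualAlg k G))) := fun x => Finset.sum_comm
      simp only [h1]
      rw [Finset.sum_comm]
      refine Finset.sum_congr rfl fun a _ => ?_
      rw [← Equiv.sum_comp (Equiv.mulLeft a)]
      simp
    have hR : (LinearMap.lTensor (DualAlg k G) comulL (comulL f)) =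
        ∑ a : G, ∑ b : G, ∑ c : G, f.ev (a * b * c) • ((dl a : DualAlg k G) ⊗ₜ[k]
          ((dl b : DualAlg k G) ⊗ₜ[k] (dl c : DualAlg k G))) := by
      rw [comulL_apply]
      simp only [map_sum, map_smul, LinearMap.lTensor_tmul, comulL_apply, ev_dl,
        TensorProduct.tmul_sum, ite_smul, one_smul, zero_smul]
      simp only [TensorProduct.tmul_ite, Finset.smul_sum, smul_ite, smul_zero]
      refine Finset.sum_congr rfl fun a _ => ?_
      rw [Finset.sum_comm]
      refine Finset.sum_congr rfl fun b _ => ?_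
      rw [Finset.sum_comm]
      refine Finset.sum_congr rfl fun c _ => ?_
      simp [mul_assoc]
    simp only [LinearMap.comp_apply, LinearEquiv.coe_coe]
    rw [hL, hR]
  rTensor_counit_comp_comul := by
    refine LinearMap.ext fun f => ?_
    simp only [LinearMap.comp_apply, comulL_apply, map_sum, map_smul, LinearMap.rTensor_tmul,
      evL_dl, TensorProduct.mk_apply, TensorProduct.ite_tmul, smul_ite, smul_zero]
    rw [Finset.sum_comm]
    simp only [Finset.sum_ite_eq, Finset.mem_univ, if_true, one_mul]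
    conv_rhs => rw [eq_sum_dl f]
    simp [TensorProduct.tmul_sum]
  lTensor_counit_comp_comul := by
    refine LinearMap.ext fun f => ?_
    simp only [LinearMap.comp_apply, comulL_apply, map_sum, map_smul, LinearMap.lTensor_tmul,
      evL_dl, LinearMap.flip_apply, TensorProduct.mk_apply, TensorProduct.tmul_ite, smul_ite,
      smul_zero]
    simp only [Finset.sum_ite_eq, Finset.mem_univ, if_true, mul_one]
    conv_rhs => rw [eq_sum_dl f]
    simp [TensorProduct.sum_tmul, TensorProduct.smul_tmul']

theorem comul_apply (f : DualAlg k G) : Coalgebra.comul (R := k) f =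
    ∑ a : G, ∑ b : G, f.ev (a * b) • ((dl a : DualAlg k G) ⊗ₜ[k] (dl b : DualAlg k G)) := rfl

theorem counit_apply (f : DualAlg k G) : Coalgebra.counit (R := k) f = f.ev 1 := rfl

noncomputable instance : Bialgebra k (DualAlg k G) :=
  Bialgebra.mk' k (DualAlg k G) rfl (fun {_ _} => rfl)
    (by
      rw [comul_apply]
      simp only [ev_one, one_smul, ← TensorProduct.tmul_sum, ← TensorProduct.sum_tmul, sum_dl]
      rfl)
    (fun {f f'} => by
      simp only [comul_apply, Finset.sum_mul, Finset.mul_sum, smul_mul_smul_comm,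
        Algebra.TensorProduct.tmul_mul_tmul, dl_mul_dl, TensorProduct.ite_tmul,
        TensorProduct.tmul_ite, smul_ite, smul_zero, ev_mul]
      refine Finset.sum_congr rfl fun a _ => Finset.sum_congr rfl fun b _ => ?_
      simp)

noncomputable instance : HopfAlgebra k (DualAlg k G) where
  antipode := antipodeL
  mul_antipode_rTensor_comul := by
    refine LinearMap.ext fun f => ?_
    simp only [LinearMap.comp_apply, comul_apply, map_sum, map_smul, LinearMap.rTensor_tmul,
      antipodeL_dl, LinearMap.mul'_apply, dl_mul_dl, smul_ite, smul_zero, Finset.sum_ite_eq,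
      Finset.mem_univ, if_true, mul_inv_cancel, counit_apply, Algebra.linearMap_apply,
      ← Finset.smul_sum]
    rw [Algebra.algebraMap_eq_smul_one, ← sum_dl]
    congr 1
    exact Equiv.sum_comp (Equiv.inv G) (fun g => (dl g : DualAlg k G))
  mul_antipode_lTensor_comul := by
    refine LinearMap.ext fun f => ?_
    simp only [LinearMap.comp_apply, comul_apply, map_sum, map_smul, LinearMap.lTensor_tmul,
      antipodeL_dl, LinearMap.mul'_apply, dl_mul_dl, smul_ite, smul_zero, counit_apply,
      Algebra.linearMap_apply]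
    rw [Algebra.algebraMap_eq_smul_one, ← sum_dl, Finset.smul_sum]
    refine Finset.sum_congr rfl fun a _ => ?_
    rw [Finset.sum_eq_single a⁻¹]
    · simp
    · intro b _ hb
      rw [if_neg]
      rintro rfl
      simp at hb
    · simp

theorem antipode_dl (a : G) : HopfAlgebra.antipode k (dl a : DualAlg k G) = dl a⁻¹ :=
  antipodeL_dl a

end Pool.Agent.MP_57c94c_al

end

-- part MP_57c94c_al.Rep
section

/-!
# Representations of `(k^G)_par` from idempotents commuting with their homogeneous components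
-/

namespace Pool.Agent.MP_57c94c_al

open TensorProduct

universe u

variable {k : Type u} [Field k] {G : Type} [Group G] [Fintype G] [DecidableEq G]
variable {B : Type u} [Ring B] [Algebra k B]

/-- the linear map `f ↦ ∑ f(g) x_g` -/
def piL (x : G → B) : DualAlg k G →ₗ[k] B where
  toFun f := ∑ g, f.ev g • x g
  map_add' f f' := by simp [ev_add, add_smul, Finset.sum_add_distrib]
  map_smul' c f := by simp [ev_smul, mul_smul, Finset.smul_sum]

omit [Group G] [DecidableEq G] in
theorem piL_apply (x : G → B) (f : DualAlg k G) : piL x f = ∑ g, f.ev g • x g := rfl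

omit [Group G] in
theorem piL_dl (x : G → B) (a : G) : piL x (dl a : DualAlg k G) = x a := by
  simp [piL_apply, ev_dl]

theorem sweedler_eq (f g : DualAlg k G →ₗ[k] TensorAlgebra k (DualAlg k G)) (u : DualAlg k G) :
    sweedler k (DualAlg k G) f g u = ∑ a : G, ∑ b : G, u.ev (a * b) • (f (dl a) * g (dl b)) := by
  simp [sweedler, comul_apply, map_sum]

/-- `E_g = ∑_a x_a x_{g⁻¹ a}` -/
def Eg (x : G → B) (g : G) : B := ∑ a : G, x a * x (g⁻¹ * a)

omit [DecidableEq G] in
theorem sum_reindex (u : DualAlg k G) (F : G → G → B) :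
    ∑ a : G, ∑ b : G, u.ev (a * b) • F a b⁻¹ = ∑ g : G, ∑ a : G, u.ev g • F a (g⁻¹ * a) := by
  rw [Finset.sum_comm (f := fun g a => u.ev g • F a (g⁻¹ * a))]
  refine Finset.sum_congr rfl fun a _ => ?_
  rw [← Equiv.sum_comp (Equiv.mulLeft a) (fun g => u.ev g • F a (g⁻¹ * a))]
  simp

theorem exists_hom (x : G → B) (h1 : ∑ g, x g = 1)
    (hl : ∀ h g, x h * Eg x g = x h * x (g⁻¹ * h))
    (hr : ∀ g j, Eg x g * x j = x (g * j) * x j) :
    ∃ Φ : HPar k (DualAlg k G) →ₐ[k] B,
      (∀ g, x g ∈ Φ.range) ∧ ∀ S : Subalgebra k B, (∀ g, x g ∈ S) → Φ.range ≤ S := by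
  let ψ : TensorAlgebra k (DualAlg k G) →ₐ[k] B := TensorAlgebra.lift k (piL x)
  have hψ : ∀ f, ψ (TensorAlgebra.ι k f) = piL x f := fun f => TensorAlgebra.lift_ι_apply _ _
  have hE : ∀ u : DualAlg k G, ψ (sweedler k (DualAlg k G) (TensorAlgebra.ι k)
      (TensorAlgebra.ι k ∘ₗ HopfAlgebra.antipode k) u) = ∑ g, u.ev g • Eg x g := by
    intro u
    simp only [sweedler_eq, map_sum, map_smul, map_mul, LinearMap.comp_apply, hψ, antipode_dl,
      piL_dl]
    rw [sum_reindex u (fun a b => x a * x b)]
    simp [Eg, Finset.smul_sum]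
  have hrel : ∀ ⦃a b⦄, ParRel k (DualAlg k G) a b → ψ a = ψ b := by
    intro a b hab
    cases hab with
    | unit => simp [hψ, piL_apply, ev_one, h1]
    | left h u =>
      rw [map_mul, hE, hψ]
      simp only [sweedler_eq, map_sum, map_smul, map_mul, LinearMap.comp_apply, hψ, antipode_dl,
        piL_dl, LinearMap.mulLeft_apply, mul_dl]
      rw [sum_reindex u (fun a b => (h.ev a • x a) * x b), piL_apply, Finset.mul_sum]
      refine Finset.sum_congr rfl fun g _ => ?_
      rw [Finset.sum_mul]
      refine Finset.sum_congr rfl fun a _ => ?_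
      rw [mul_smul_comm, smul_mul_assoc, smul_mul_assoc, hl]
    | right h u =>
      rw [map_mul, hE, hψ]
      simp only [sweedler_eq, map_sum, map_smul, map_mul, LinearMap.comp_apply, hψ, antipode_dl,
        piL_dl, LinearMap.mulRight_apply, mul_comm (dl _) u, mul_dl]
      rw [sum_reindex h (fun a b => x a * (u.ev b • x b)), piL_apply, Finset.sum_mul]
      refine Finset.sum_congr rfl fun g _ => ?_
      rw [Finset.mul_sum, ← Equiv.sum_comp (Equiv.mulLeft g)
        (fun a => h.ev g • (x a * (u.ev (g⁻¹ * a) • x (g⁻¹ * a))))]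
      refine Finset.sum_congr rfl fun j _ => ?_
      simp only [Equiv.coe_mulLeft, inv_mul_cancel_left]
      rw [smul_mul_assoc, mul_smul_comm, mul_smul_comm, hr]
  refine ⟨RingQuot.liftAlgHom k ⟨ψ, hrel⟩, fun g => ?_, fun S hS => ?_⟩
  · refine ⟨RingQuot.mkAlgHom k _ (TensorAlgebra.ι k (dl g)), ?_⟩
    change RingQuot.liftAlgHom k ⟨ψ, hrel⟩ _ = _
    rw [RingQuot.liftAlgHom_mkAlgHom_apply, hψ, piL_dl]
  · rintro _ ⟨y, rfl⟩
    obtain ⟨t, rfl⟩ := RingQuot.mkAlgHom_surjective k _ y
    change RingQuot.liftAlgHom k ⟨ψ, hrel⟩ _ ∈ S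
    rw [RingQuot.liftAlgHom_mkAlgHom_apply]
    induction t using TensorAlgebra.induction with
    | algebraMap r => rw [AlgHom.commutes]; exact S.algebraMap_mem r
    | ι f =>
      rw [hψ, piL_apply]
      exact S.sum_mem fun g _ => S.smul_mem (hS g) _
    | mul a b ha hb => rw [map_mul]; exact S.mul_mem ha hb
    | add a b ha hb => rw [map_add]; exact S.add_mem ha hb

theorem not_semisimple_of_central_nilpotent {A : Type*} [Ring A] [Algebra k A] (Φ : A →ₐ[k] B)
    (n : B) (hn : n ∈ Φ.range) (hc : ∀ a, Φ a * n = n * Φ a) (h2 : n * n = 0) (h0 : n ≠ 0) :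
    ¬ IsSemisimpleRing A := by
  intro hs
  obtain ⟨m, rfl⟩ := hn
  change Φ m * Φ m = 0 at h2
  change Φ m ≠ 0 at h0
  change ∀ a, Φ a * Φ m = Φ m * Φ a at hc
  obtain ⟨e, he, hI⟩ := IsSemisimpleRing.ideal_eq_span_idempotent (Ideal.span {m})
  obtain ⟨s, hs⟩ := Ideal.mem_span_singleton'.1 (hI ▸ Ideal.mem_span_singleton_self e :
    e ∈ Ideal.span {m})
  obtain ⟨s', hs'⟩ := Ideal.mem_span_singleton'.1 (hI ▸ Ideal.mem_span_singleton_self m :
    m ∈ Ideal.span {e})
  have h3 : Φ e = 0 := by
    calc Φ e = Φ (e * e) := by rw [he.eq]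
      _ = Φ s * (Φ m * Φ s) * Φ m := by rw [← hs]; simp [mul_assoc]
      _ = Φ s * Φ s * (Φ m * Φ m) := by rw [← hc]; simp [mul_assoc]
      _ = 0 := by rw [h2, mul_zero]
  apply h0
  rw [← hs', map_mul, h3, mul_zero]

/-- `T_g = ∑_a p_a T p_{g⁻¹ a}` -/
def Tg (p : G → B) (T : B) (g : G) : B := ∑ a : G, p a * T * p (g⁻¹ * a)

/-- `x_g = T p_g T + [g = 1] (1 - T)` -/
def xg (p : G → B) (T : B) (g : G) : B := T * p g * T + if g = 1 then 1 - T else 0

omit [Fintype G] in
theorem commute_xg (p : G → B) (T y : B) (g : G) (c1 : Commute y T) (c2 : Commute y (p g)) :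
    Commute y (xg p T g) := by
  unfold xg
  refine ((c1.mul_right c2).mul_right c1).add_right ?_
  split_ifs
  · exact (Commute.one_right _).sub_right c1
  · exact Commute.zero_right _

omit [Fintype G] in
theorem commute_xg_self (p : G → B) (T : B) (hT : T * T = T) (g : G) :
    Commute T (xg p T g) := by
  unfold xg
  refine Commute.add_right ?_ ?_
  · change T * (T * p g * T) = T * p g * T * T
    rw [← mul_assoc, ← mul_assoc, hT, mul_assoc (T * p g), hT]
  · split_ifs
    · exact (Commute.one_right _).sub_right (Commute.refl _)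
    · exact Commute.zero_right _

section
variable (p : G → B) (T : B) (hp : ∀ a b, p a * p b = if a = b then p a else 0)
  (hs : ∑ a, p a = 1) (hT : T * T = T) (hc : ∀ g, T * Tg p T g = Tg p T g * T)

include hs hT in
theorem xg_sum : ∑ g, xg p T g = 1 := by
  simp only [xg, Finset.sum_add_distrib, ← Finset.sum_mul, ← Finset.mul_sum, hs]
  simp [hT]

omit [Fintype G] in
include hT in
theorem xg_mul (a b : G) : xg p T a * xg p T b =
    T * (p a * T * p b) * T + if a = 1 ∧ b = 1 then 1 - T else 0 := by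
  have e1 : T * (1 - T) = 0 := by rw [mul_sub, hT]; simp
  have e2 : (1 - T) * T = 0 := by rw [sub_mul, hT]; simp
  have e3 : (1 - T) * (1 - T) = 1 - T := by rw [mul_sub, e2]; simp
  have e4 : T * p a * T * (T * p b * T) = T * (p a * T * p b) * T := by
    calc T * p a * T * (T * p b * T) = T * p a * (T * T) * p b * T := by simp only [mul_assoc]
      _ = _ := by rw [hT]; simp only [mul_assoc]
  have e5 : T * p a * T * (1 - T) = 0 := by rw [mul_assoc, e1, mul_zero]
  have e6 : (1 - T) * (T * p b * T) = 0 := by rw [← mul_assoc, ← mul_assoc, e2]; simp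
  unfold xg
  by_cases ha : a = 1 <;> by_cases hb : b = 1
  · rw [if_pos ha, if_pos hb, if_pos ⟨ha, hb⟩, add_mul, mul_add, mul_add, e3, e4, e5, e6]; simp
  · rw [if_pos ha, if_neg hb, if_neg (fun h => hb h.2), add_zero, add_mul, e4, e6]
  · rw [if_neg ha, if_pos hb, if_neg (fun h => ha h.1), add_zero, mul_add, e4, e5]
  · rw [if_neg ha, if_neg hb, if_neg (fun h => ha h.1), add_zero, add_zero, e4, add_zero]

include hT in
theorem Eg_xg (g : G) : Eg (xg p T) g = T * Tg p T g * T + if g = 1 then 1 - T else 0 := by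
  unfold Eg Tg
  simp only [xg_mul p T hT, Finset.sum_add_distrib, ← Finset.sum_mul, ← Finset.mul_sum]
  congr 1
  rw [Finset.sum_eq_single 1]
  · simp
  · intro b _ hb
    simp [hb]
  · simp

include hp in
theorem p_mul_Tg (h g : G) : p h * Tg p T g = p h * T * p (g⁻¹ * h) := by
  unfold Tg
  rw [Finset.mul_sum, Finset.sum_eq_single h]
  · rw [← mul_assoc, ← mul_assoc, hp]; simp
  · intro b _ hb
    rw [← mul_assoc, ← mul_assoc, hp, if_neg (Ne.symm hb)]; simp
  · simp

include hp in
theorem Tg_mul_p (g j : G) : Tg p T g * p j = p (g * j) * T * p j := by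
  unfold Tg
  rw [Finset.sum_mul, Finset.sum_eq_single (g * j)]
  · rw [mul_assoc, hp]; simp
  · intro b _ hb
    rw [mul_assoc, hp, if_neg]
    · simp
    · rintro rfl
      simp at hb
  · simp

include hp hT hc in
theorem xg_left (h g : G) : xg p T h * Eg (xg p T) g = xg p T h * xg p T (g⁻¹ * h) := by
  have e1 : T * (1 - T) = 0 := by rw [mul_sub, hT]; simp
  have e2 : (1 - T) * T = 0 := by rw [sub_mul, hT]; simp
  have e3 : (1 - T) * (1 - T) = 1 - T := by rw [mul_sub, e2]; simp
  have e4 : T * p h * T * (T * Tg p T g * T) = T * (p h * T * p (g⁻¹ * h)) * T := by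
    calc T * p h * T * (T * Tg p T g * T) = T * p h * ((T * T) * Tg p T g) * T := by
          simp only [mul_assoc]
      _ = T * p h * (T * Tg p T g) * T := by rw [hT]
      _ = T * (p h * Tg p T g) * (T * T) := by rw [hc]; simp only [mul_assoc]
      _ = _ := by rw [hT, p_mul_Tg p T hp]
  have e5 : T * p h * T * (1 - T) = 0 := by rw [mul_assoc, e1, mul_zero]
  have e6 : (1 - T) * (T * Tg p T g * T) = 0 := by rw [← mul_assoc, ← mul_assoc, e2]; simp
  rw [xg_mul p T hT, Eg_xg p T hT]
  unfold xg
  by_cases ha : h = 1 <;> by_cases hb : g = 1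
  · subst ha; subst hb
    simp only [if_true, add_mul, mul_add, e3, e4, e5, e6]; simp
  · subst ha
    simp only [if_true, if_neg hb, add_mul, add_zero, e4, e6]; simp [hb]
  · subst hb
    simp only [if_true, if_neg ha, mul_add, add_zero, e4, e5]; simp [ha]
  · simp only [if_neg hb, if_neg ha, add_zero, e4]; simp [ha]

include hp hT hc in
theorem xg_right (g j : G) : Eg (xg p T) g * xg p T j = xg p T (g * j) * xg p T j := by
  have e1 : T * (1 - T) = 0 := by rw [mul_sub, hT]; simp
  have e2 : (1 - T) * T = 0 := by rw [sub_mul, hT]; simp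
  have e3 : (1 - T) * (1 - T) = 1 - T := by rw [mul_sub, e2]; simp
  have e4 : T * Tg p T g * T * (T * p j * T) = T * (p (g * j) * T * p j) * T := by
    calc T * Tg p T g * T * (T * p j * T) = T * (Tg p T g * (T * T)) * p j * T := by
          simp only [mul_assoc]
      _ = T * (Tg p T g * T) * p j * T := by rw [hT]
      _ = (T * T) * (Tg p T g * p j) * T := by rw [← hc]; simp only [mul_assoc]
      _ = _ := by rw [hT, Tg_mul_p p T hp]
  have e5 : T * Tg p T g * T * (1 - T) = 0 := by rw [mul_assoc, e1, mul_zero]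
  have e6 : (1 - T) * (T * p j * T) = 0 := by rw [← mul_assoc, ← mul_assoc, e2]; simp
  rw [xg_mul p T hT, Eg_xg p T hT]
  unfold xg
  by_cases ha : j = 1 <;> by_cases hb : g = 1
  · subst ha; subst hb
    simp only [if_true, add_mul, mul_add, e3, e4, e5, e6]; simp
  · subst ha
    simp only [if_true, if_neg hb, mul_add, add_zero, e4, e5]; simp [hb]
  · subst hb
    simp only [if_true, if_neg ha, add_mul, add_zero, e4, e6]; simp [ha]
  · simp only [if_neg hb, if_neg ha, add_zero, e4]; simp [ha]

end

end Pool.Agent.MP_57c94c_al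

end
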